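import Pool.Agent.Lib.MP_402e48_co.Closed

set_option autoImplicit false

namespace Pool.Agent.Results.MP_402e48_co.NineNClosed

open Finset

/-- `r_x`: the distance from `x` to the nearest other point of `S`. -/
noncomputable def radius (S : Finset (EuclideanSpace ℝ (Fin 2))) (x : EuclideanSpace ℝ (Fin 2)) :
    ℝ :=
  Metric.infDist x ((S : Set (EuclideanSpace ℝ (Fin 2))) \ {x})

theorem result (S : Finset (EuclideanSpace ℝ (Fin 2))) (h : 2 ≤ S.card) (G : SimpleGraph S)
    (hG : ∀ x y : S, G.Adj x y → dist x.1 y.1 ≤ radius S x.1 + radius S y.1) :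
    G.edgeSet.ncard ≤ 9 * S.card := by
  classical
  have hd : ∀ x y : EuclideanSpace ℝ (Fin 2),
      dist x y ^ 2 = Complex.normSq ((⟨y 0, y 1⟩ : ℂ) - ⟨x 0, x 1⟩) := by
    intro x y
    rw [Pool.Agent.SIG.nsq, EuclideanSpace.dist_sq_eq, Fin.sum_univ_two, Real.dist_eq,
      Real.dist_eq, sq_abs, sq_abs]
    ring
  have hr : ∀ x : S, 0 < radius S x.1 := by
    intro x
    have hfin : ((S : Set (EuclideanSpace ℝ (Fin 2))) \ {x.1}).Finite :=
      S.finite_toSet.subset Set.sdiff_subset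
    obtain ⟨y, hy, hne⟩ := exists_mem_ne (s := S) (by omega) x.1
    exact (hfin.isClosed.notMem_iff_infDist_pos ⟨y, hy, hne⟩).1 (fun h => h.2 rfl)
  have key := Pool.Agent.SIG.discs_closed (ι := S) (fun x => ⟨x.1 0, x.1 1⟩)
    (fun x => radius S x.1) hr
    (fun x z hz => by
      rw [← hd]
      exact pow_le_pow_left₀ (hr x).le
        (Metric.infDist_le_dist_of_mem ⟨z.2, fun h => hz (Subtype.ext h)⟩) 2)
    (univ.filter fun (x, y) => G.Adj x y)
    (fun e he => by
      have ha := (mem_filter.1 he).2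
      refine ⟨ha.ne, ?_⟩
      rw [← hd]
      exact pow_le_pow_left₀ dist_nonneg (hG _ _ ha) 2)
  have h2 : 2 * #G.edgeFinset ≤ 18 * Fintype.card S := by
    rw [SimpleGraph.two_mul_card_edgeFinset]
    convert key
  rw [Fintype.card_coe] at h2
  rw [← SimpleGraph.coe_edgeFinset, Set.ncard_coe_finset]
  omega

end Pool.Agent.Results.MP_402e48_co.NineNClosed
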